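import Pool.Agent.H8.TD.Targets

/-!
Row ADJ of the board n3_modules: degrees over a field generated in two steps.
-/

set_option autoImplicit false

open MvPolynomial
open Pool.Agent.H12.ZD (pmap v O Res DenseOrbit NoInv)
open Pool.Agent.H18.HIT
open Pool.Agent.H8.ZA (HFam Const NA sz)
open Pool.Agent.H8.TD

namespace Pool.Agent.H98.TD

theorem pf_ADJ : T_ADJ := by
  intro k K _ _ _ S c
  have h : (IntermediateField.adjoin (IntermediateField.adjoin k S) {c}).restrictScalars k =
      IntermediateField.adjoin k (insert c S) := by
    rw [IntermediateField.adjoin_adjoin_left, Set.union_singleton]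
  have h2 : dg k (insert c S) = Module.finrank
      ((IntermediateField.adjoin (IntermediateField.adjoin k S) {c}).restrictScalars k) K := by
    rw [h]
    rfl
  rw [h2]
  rfl

end Pool.Agent.H98.TD
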